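import Pool.Agent.W527.CL.Stm

namespace Pool.Agent.W764.CLTOP

open NumberField Pool.Agent.W527.CL

theorem cont_ex {K : Type} [Field K] (v : (K →+* ℂ) → ℂ) :
    Continuous (fun t : ℝ => ex (fun φ => (t : ℂ) * v φ)) := by
  refine continuous_pi fun φ => ?_
  rw [Units.continuous_iff]
  refine ⟨?_, ?_⟩
  · show Continuous (fun t : ℝ => Complex.exp ((t : ℂ) * v φ))
    fun_prop
  · have : (fun t : ℝ => (((ex (fun φ => (t : ℂ) * v φ)) φ)⁻¹ : ℂˣ).val) =
        (fun t : ℝ => Complex.exp (-((t : ℂ) * v φ))) := by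
      funext t
      rw [Complex.exp_neg]
      rfl
    show Continuous (fun t : ℝ => (((ex (fun φ => (t : ℂ) * v φ)) φ)⁻¹ : ℂˣ).val)
    rw [this]
    fun_prop

theorem t_PATH : S_PATH := by
  intro K _ _ L v h t
  have hc : Continuous (fun t : ℝ => (⟨ex (fun φ => (t : ℂ) * v φ), h t⟩ : clos K L)) :=
    Continuous.subtype_mk (cont_ex v) h
  have h1 : (1 : clos K L) ∈ Set.range
      (fun t : ℝ => (⟨ex (fun φ => (t : ℂ) * v φ), h t⟩ : clos K L)) := by
    refine ⟨0, ?_⟩
    apply Subtype.ext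
    funext φ
    apply Units.ext
    simp [ex]
  have h2 := (isPreconnected_range hc).subset_connectedComponent h1
  exact ⟨⟨ex (fun φ => (t : ℂ) * v φ), h t⟩, h2 ⟨t, rfl⟩, rfl⟩

theorem exp_eq_one_imp {w : ℂ} (h : ∀ t : ℝ, Complex.exp ((t : ℂ) * w) = 1) : w = 0 := by
  have h1 : HasDerivAt (fun t : ℝ => Complex.exp ((t : ℂ) * w)) (Complex.exp (((0 : ℝ) : ℂ) * w) * (1 * w)) 0 := by
    apply HasDerivAt.cexp
    exact (HasDerivAt.mul_const (hasDerivAt_id (0 : ℝ)).ofReal_comp w)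
  have h2 : (fun t : ℝ => Complex.exp ((t : ℂ) * w)) = fun _ => (1 : ℂ) := funext h
  rw [h2] at h1
  have h3 := h1.unique (hasDerivAt_const (0 : ℝ) (1 : ℂ))
  simpa using h3

theorem prod_ex {K : Type} [Field K] [NumberField K] (z : (K →+* ℂ) → ℂ) (n : (K →+* ℂ) → ℤ) :
    ((∏ φ, ex z φ ^ n φ : ℂˣ) : ℂ) = Complex.exp (∑ φ, (n φ : ℂ) * z φ) := by
  rw [Complex.exp_sum]
  push_cast
  refine Finset.prod_congr rfl fun φ _ => ?_
  rw [Complex.exp_int_mul]
  rfl

theorem t_DIVIS : S_DIVIS := by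
  intro K _ _ L N hidx z hz hN
  set M := ((idComp K L).relIndex (points K N)).factorial with hM
  have hM0 : (M : ℂ) ≠ 0 := by
    exact_mod_cast (Nat.factorial_pos _).ne'
  have ha : ex (fun φ => z φ / (M : ℂ)) ∈ points K N := by
    refine ⟨?_, ?_⟩
    · intro φ
      show Complex.exp (z (ComplexEmbedding.conjugate φ) / M) =
        (starRingEnd ℂ) (Complex.exp (z φ / M))
      rw [← Complex.exp_conj, map_div₀, hz φ, Complex.conj_natCast]
    · intro n hn
      apply Units.ext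
      rw [prod_ex]
      have : ∑ φ, (n φ : ℂ) * (z φ / (M : ℂ)) = (∑ φ, (n φ : ℂ) * z φ) / M := by
        rw [Finset.sum_div]
        exact Finset.sum_congr rfl fun φ _ => by ring
      rw [this, hN n hn]
      simp
  obtain ⟨k, hk0, hk1, hk2⟩ := Subgroup.exists_pow_mem_of_relIndex_ne_zero hidx ha
  have hdvd : k ∣ M := Nat.dvd_factorial hk0 hk1
  obtain ⟨l, hl⟩ := hdvd
  have hk3 : ex (fun φ => z φ / (M : ℂ)) ^ k ∈ idComp K L := hk2.1
  have : ex z = (ex (fun φ => z φ / (M : ℂ)) ^ k) ^ l := by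
    rw [← pow_mul, ← hl]
    funext φ
    apply Units.ext
    show Complex.exp (z φ) = Complex.exp (z φ / M) ^ M
    rw [← Complex.exp_nat_mul]
    congr 1
    field_simp
  rw [this]
  exact pow_mem hk3 l

theorem t_LIE : S_LIE := by
  intro K _ _ N v h
  refine ⟨?_, ?_⟩
  · intro φ
    rw [← sub_eq_zero]
    apply exp_eq_one_imp
    intro t
    have h1 := (h t).1 φ
    have h2 : Complex.exp ((t : ℂ) * v (ComplexEmbedding.conjugate φ)) =
        (starRingEnd ℂ) (Complex.exp ((t : ℂ) * v φ)) := h1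
    rw [mul_sub, Complex.exp_sub, h2, ← Complex.exp_conj, map_mul, Complex.conj_ofReal, div_self]
    exact Complex.exp_ne_zero _
  · intro n hn
    apply exp_eq_one_imp
    intro t
    have h1 := (h t).2 n hn
    have h2 := congrArg (Units.val) h1
    rw [prod_ex] at h2
    rw [Units.val_one] at h2
    rw [← h2]
    congr 1
    rw [Finset.mul_sum]
    exact Finset.sum_congr rfl fun φ _ => by ring

end Pool.Agent.W764.CLTOP
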