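import Pool.Agent.W886.PM.Stm0

namespace Pool.Agent.W764.PMGEN

open Pool.Agent.NPC Pool.Agent.H620R2.Gauge Pool.Agent.H622R2.Ckt Finset H568R2
open Pool.Agent.H943R6.MC Pool.Agent.W886.PM

/-- the oracles for which the parameters are good -/
def EasyG (S : Oracle → Set (List Bool)) (θ : Par) : Set Oracle :=
  {A | ∃ (V : List Bool → List Bool) (h : ℕ → List Bool),
    (∀ x, θ.M.out A x = some (V x)) ∧ (∀ n, (h n).length ≤ θ.p'.eval n) ∧
    ∀ j T, inst j T ∉ S A ↔ ∃ w : List Bool,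
      w.length ≤ θ.p.eval (pairBits (inst j T) (h (len j))).length ∧
      V (pairBits w (pairBits (inst j T) (h (len j)))) = [true]}

theorem evG_of_easy (S : Oracle → Set (List Bool))
    (hS1 : ∀ (A : Oracle) (j N : ℕ) (hN : 2 ^ (2 ^ j + 2 * j + 1) ≤ N) (s : ℕ), 8 ≤ j →
      inst j (fun i => pre N A (pos N j hN s i)) ∈ S A)
    (hS2 : ∀ (A : Oracle) (j : ℕ), 8 ≤ j → ∃ E : Finset (Fin (2 ^ (2 * j)) → Bool),
      (∀ T, T ∈ E ↔ inst j T ∈ S A) ∧ (E.card : ℝ) ≤ (1 / 4 : ℝ) * 2 ^ 2 ^ (2 * j))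
    (θ : Par) :
    ∃ Q : Polynomial ℕ, ∀ A ∈ EasyG S θ, ∀ j, 8 ≤ j → ∀ (N : ℕ)
      (hN : 2 ^ (2 ^ j + 2 * j + 1) ≤ N), 2 ^ (Q.eval (2 ^ j) + 1) ≤ N →
      EvM θ N j hN (pre N A) := by
  classical
  obtain ⟨qb, hqb⟩ := Alg.out_local θ.M
  refine ⟨qb.comp (Pool.Agent.H943R6.MC.Par.P3 θ), ?_⟩
  rintro A ⟨V, h, hM, hh, hx⟩ j hj N hN hN2
  rw [Polynomial.eval_comp] at hN2
  have hout : ∀ y : List Bool, y.length ≤ (Pool.Agent.H943R6.MC.Par.P3 θ).eval (2 ^ j) →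
      θ.M.out (orc N (pre N A)) y = some (V y) := by
    intro y hy
    obtain ⟨Q, _, hQl, hQA⟩ := hqb A y
    rw [← hM y]
    apply hQA
    intro q hq
    apply orc_pre
    have h2 := idx_lt q
    have h3 : q.length ≤ qb.eval ((Pool.Agent.H943R6.MC.Par.P3 θ).eval (2 ^ j)) := (hQl q hq).trans (eval_mono _ hy)
    have h4 : 2 ^ (q.length + 1) ≤ 2 ^ (qb.eval ((Pool.Agent.H943R6.MC.Par.P3 θ).eval (2 ^ j)) + 1) :=
      Nat.pow_le_pow_right (by norm_num) (by omega)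
    omega
  have hlen1 := len_le j
  have hlen2 : (h (len j)).length ≤ (Pool.Agent.H943R6.MC.Par.P1 θ).eval (2 ^ j) := by
    unfold Pool.Agent.H943R6.MC.Par.P1
    rw [Polynomial.eval_comp]
    exact (hh _).trans (eval_mono _ hlen1)
  have hlen3 : 2 * len j + 1 + (h (len j)).length ≤
      (2 * lenP + 1 + Pool.Agent.H943R6.MC.Par.P1 θ).eval (2 ^ j) := by
    have : (2 * lenP + 1 + Pool.Agent.H943R6.MC.Par.P1 θ).eval (2 ^ j) =
        2 * lenP.eval (2 ^ j) + 1 + (Pool.Agent.H943R6.MC.Par.P1 θ).eval (2 ^ j) := by simp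
    rw [this]
    omega
  have hP3 : (Pool.Agent.H943R6.MC.Par.P3 θ).eval (2 ^ j) =
      2 * θ.p.eval ((2 * lenP + 1 + Pool.Agent.H943R6.MC.Par.P1 θ).eval (2 ^ j)) + 1 +
        (2 * lenP + 1 + Pool.Agent.H943R6.MC.Par.P1 θ).eval (2 ^ j) := by
    simp [Pool.Agent.H943R6.MC.Par.P3, Polynomial.eval_comp]
  have key : ∀ T : Fin (2 ^ (2 * j)) → Bool,
      (AccE θ N j (h (len j)) T (pre N A) ↔ inst j T ∉ S A) := by
    intro T
    have hl := length_inst j T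
    have h1 := hx j T
    have h2 : (pairBits (inst j T) (h (len j))).length = 2 * len j + 1 + (h (len j)).length := by
      rw [Pool.Agent.H620R2.Gauge.length_pairBits, hl]
    rw [h2] at h1
    rw [h1]
    unfold AccE
    apply exists_congr
    intro w
    apply and_congr_right
    intro hw
    rw [hout _ ?_]
    · simp
    · rw [Pool.Agent.H620R2.Gauge.length_pairBits, h2, hP3]
      have h4 := hw.trans (eval_mono θ.p hlen3)
      omega
  refine ⟨(h (len j)).length, hh _, h (len j), rfl, ?_, ?_⟩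
  · intro s _ hacc
    exact (key _).1 hacc (hS1 A j N hN s hj)
  · obtain ⟨E, hE1, hE2⟩ := hS2 A j hj
    refine ⟨Eᶜ, ?_, ?_⟩
    · intro T hT
      refine (key T).2 fun hT2 => ?_
      exact (mem_compl.1 hT) ((hE1 T).2 hT2)
    · have h3 : Fintype.card (Fin (2 ^ (2 * j)) → Bool) = 2 ^ 2 ^ (2 * j) := by
        simp
      have h2 := card_add_card_compl E
      rw [h3] at h2
      have h4 : (E.card : ℝ) + (Eᶜ.card : ℝ) = 2 ^ 2 ^ (2 * j) := by
        exact_mod_cast h2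
      linarith

theorem task : S_GEN := by
  classical
  intro S hS1 hS2 f hf O hO
  refine (null_iUnion (f := f) (EasyG S) fun θ => ?_).mono fun A hA => ?_
  · intro δ hδ
    obtain ⟨Q, hQ⟩ := evG_of_easy S hS1 (fun A j hj => ⟨_, fun T => by
      rw [mem_filter]; exact ⟨fun h => h.2, fun h => ⟨mem_univ _, h⟩⟩, hS2 A j hj⟩) θ
    obtain ⟨j, hj, N, hN, hb⟩ := asy (Pool.Agent.H943R6.MC.Par.P1 θ) (Pool.Agent.H943R6.MC.Par.P2 θ) (Q + 3 * Polynomial.X) hf δ hδ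
    have hQe : (Q + 3 * Polynomial.X).eval (2 ^ j) = Q.eval (2 ^ j) + 3 * 2 ^ j := by simp
    rw [hQe] at hN
    have hj2 : j < 2 ^ j := Nat.lt_two_pow_self
    have hN1 : 2 ^ (2 ^ j + 2 * j + 1) ≤ N :=
      le_trans (Nat.pow_le_pow_right (by norm_num) (by omega)) hN
    have hN2 : 2 ^ (Q.eval (2 ^ j) + 1) ≤ N :=
      le_trans (Nat.pow_le_pow_right (by norm_num) (by omega)) hN
    refine cover_of_event (EvM θ N j hN1) (EasyG S θ)
      (fun A hA => hQ A hA j hj N hN1 hN2) f δ ?_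
    exact (mul_le_mul_of_nonneg_right (evM_bound θ hN1) (by positivity)).trans hb
  · obtain ⟨L', h, p', ⟨V, p, ⟨M, hM⟩, hL'⟩, hh, hx⟩ := hO A hA
    exact Set.mem_iUnion.2 ⟨⟨M, p, 1, p'⟩, V, h, hM, hh, fun j T => (hx j T).trans (hL' _)⟩

end Pool.Agent.W764.PMGEN
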